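import Mathlib

/-!
A positive map `H₂ → H₆` that is not decomposable.  It is the map attached to the biquadratic form
`3 ∑ |k̄ᵢ ηⁱʲₗ|² - 2 |k̄ᵢ ηⁱʲⱼ|² + 4 ∑ |kˡ ηⁱʲₗ|²` on `ℂ² × (Sym² ℂ² ⊗ conj ℂ²)`.
-/

namespace Pool.Agent.Q213.CLP

open Matrix ComplexConjugate

/-- `A ↦ Aᴴ X A`. -/
def cj {m n : ℕ} (A : Matrix (Fin m) (Fin n) ℂ) (X : Matrix (Fin m) (Fin m) ℂ) :
    Matrix (Fin n) (Fin n) ℂ := Aᴴ * X * A

def A11 : Matrix (Fin 2) (Fin 6) ℂ := !![1, 0, 0, 0, 0, 0; 0, 1, 0, 0, 0, 0]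
def A21 : Matrix (Fin 2) (Fin 6) ℂ := !![0, 1, 0, 0, 0, 0; 0, 0, 1, 0, 0, 0]
def A12 : Matrix (Fin 2) (Fin 6) ℂ := !![0, 0, 0, 1, 0, 0; 0, 0, 0, 0, 1, 0]
def A22 : Matrix (Fin 2) (Fin 6) ℂ := !![0, 0, 0, 0, 1, 0; 0, 0, 0, 0, 0, 1]
def A0 : Matrix (Fin 2) (Fin 6) ℂ := !![1, 0, 0, 0, 1, 0; 0, 1, 0, 0, 0, 1]
def B0 : Matrix (Fin 2) (Fin 6) ℂ := !![1, 0, 0, 0, 0, 0; 0, 0, 0, 1, 0, 0]
def B1 : Matrix (Fin 2) (Fin 6) ℂ := !![0, 1, 0, 0, 0, 0; 0, 0, 0, 0, 1, 0]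
def B2 : Matrix (Fin 2) (Fin 6) ℂ := !![0, 0, 1, 0, 0, 0; 0, 0, 0, 0, 0, 1]

/-- The map, before normalisation. -/
noncomputable def Phi0 (X : Matrix (Fin 2) (Fin 2) ℂ) : Matrix (Fin 6) (Fin 6) ℂ :=
  (3 : ℂ) • (cj A11 X + cj A21 X + cj A12 X + cj A22 X) - (2 : ℂ) • cj A0 X
    + (4 : ℂ) • cj B0 Xᵀ + (8 : ℂ) • cj B1 Xᵀ + (4 : ℂ) • cj B2 Xᵀ

lemma cj_add {m n : ℕ} (A : Matrix (Fin m) (Fin n) ℂ) (X Y : Matrix (Fin m) (Fin m) ℂ) :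
    cj A (X + Y) = cj A X + cj A Y := by
  simp [cj, Matrix.mul_add, Matrix.add_mul]

lemma cj_smul {m n : ℕ} (A : Matrix (Fin m) (Fin n) ℂ) (c : ℂ) (X : Matrix (Fin m) (Fin m) ℂ) :
    cj A (c • X) = c • cj A X := by
  simp [cj]

lemma Phi0_add (X Y : Matrix (Fin 2) (Fin 2) ℂ) : Phi0 (X + Y) = Phi0 X + Phi0 Y := by
  simp only [Phi0, cj_add, Matrix.transpose_add, smul_add]
  abel

lemma Phi0_smul (c : ℂ) (X : Matrix (Fin 2) (Fin 2) ℂ) : Phi0 (c • X) = c • Phi0 X := by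
  simp only [Phi0, cj_smul, Matrix.transpose_smul, smul_add, smul_sub, smul_comm c]

lemma cj_conjTranspose {m n : ℕ} (A : Matrix (Fin m) (Fin n) ℂ) (X : Matrix (Fin m) (Fin m) ℂ) :
    (cj A X)ᴴ = cj A Xᴴ := by
  simp [cj, Matrix.mul_assoc]

lemma Phi0_conjTranspose (X : Matrix (Fin 2) (Fin 2) ℂ) : (Phi0 X)ᴴ = Phi0 Xᴴ := by
  have h : ∀ Y : Matrix (Fin 2) (Fin 2) ℂ, Yᵀᴴ = Yᴴᵀ := fun Y => rfl
  simp only [Phi0, conjTranspose_add, conjTranspose_sub, conjTranspose_smul, cj_conjTranspose, h]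
  simp

/-- The quadratic form of `cj A (k kᴴ)`. -/
lemma cj_form {m n : ℕ} (A : Matrix (Fin m) (Fin n) ℂ) (k : Fin m → ℂ) (x : Fin n → ℂ) :
    star x ⬝ᵥ (cj A (vecMulVec k (star k)) *ᵥ x) =
      (star k ⬝ᵥ (A *ᵥ x)) * star (star k ⬝ᵥ (A *ᵥ x)) := by
  have h1 : cj A (vecMulVec k (star k)) *ᵥ x = (star k ⬝ᵥ (A *ᵥ x)) • (Aᴴ *ᵥ k) := by
    rw [cj, ← Matrix.mulVec_mulVec, ← Matrix.mulVec_mulVec]
    have : vecMulVec k (star k) *ᵥ (A *ᵥ x) = (star k ⬝ᵥ (A *ᵥ x)) • k := by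
      rw [vecMulVec_mulVec]
      ext i
      simp [mul_comm]
    rw [this, mulVec_smul]
  rw [h1, dotProduct_smul, smul_eq_mul]
  congr 1
  rw [← star_dotProduct, star_mulVec, ← dotProduct_mulVec]

/-- The value of the biquadratic form. -/
noncomputable def F (k : Fin 2 → ℂ) (x : Fin 6 → ℂ) : ℝ :=
  3 * (‖conj (k 0) * x 0 + conj (k 1) * x 1‖ ^ 2 + ‖conj (k 0) * x 1 + conj (k 1) * x 2‖ ^ 2
    + ‖conj (k 0) * x 3 + conj (k 1) * x 4‖ ^ 2 + ‖conj (k 0) * x 4 + conj (k 1) * x 5‖ ^ 2)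
    - 2 * ‖conj (k 0) * (x 0 + x 4) + conj (k 1) * (x 1 + x 5)‖ ^ 2
    + 4 * ‖k 0 * x 0 + k 1 * x 3‖ ^ 2 + 8 * ‖k 0 * x 1 + k 1 * x 4‖ ^ 2
    + 4 * ‖k 0 * x 2 + k 1 * x 5‖ ^ 2

lemma nsq (z : ℂ) : z * star z = ((‖z‖ ^ 2 : ℝ) : ℂ) := by
  rw [Complex.star_def, Complex.mul_conj, Complex.normSq_eq_norm_sq]

lemma vm_transpose (k : Fin 2 → ℂ) :
    (vecMulVec k (star k))ᵀ = vecMulVec (star k) (star (star k)) := by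
  ext i j
  simp [vecMulVec_apply, mul_comm]

lemma Phi0_form (k : Fin 2 → ℂ) (x : Fin 6 → ℂ) :
    star x ⬝ᵥ (Phi0 (vecMulVec k (star k)) *ᵥ x) = (F k x : ℂ) := by
  simp only [Phi0, vm_transpose, add_mulVec, sub_mulVec, smul_mulVec, dotProduct_add,
    dotProduct_sub, dotProduct_smul, cj_form, nsq]
  simp only [A11, A21, A12, A22, A0, B0, B1, B2, F, smul_eq_mul, star_star]
  simp [dotProduct, mulVec, Fin.sum_univ_succ]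

/-- The sum-of-squares certificate for `F`. -/
lemma F_identity (k : Fin 2 → ℂ) (x : Fin 6 → ℂ) :
    let c0 := conj (k 0)
    let c1 := conj (k 1)
    let N := ‖k 0‖ ^ 2 + ‖k 1‖ ^ 2
    let p := k 0 * (c0 * x 0 + c1 * x 1) + k 1 * (c0 * x 3 + c1 * x 4)
    let q := k 0 * (c0 * x 1 + c1 * x 2) + k 1 * (c0 * x 4 + c1 * x 5)
    let p' := -c1 * (c0 * x 0 + c1 * x 1) + c0 * (c0 * x 3 + c1 * x 4)
    let q' := -c1 * (c0 * x 1 + c1 * x 2) + c0 * (c0 * x 4 + c1 * x 5)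
    let a := c0 * p + c1 * q
    let b := -k 1 * p' + k 0 * q'
    let d0 := k 0 * x 0 + k 1 * x 3
    let d1 := k 0 * x 1 + k 1 * x 4
    let d2 := k 0 * x 2 + k 1 * x 5
    N ^ 2 * F k x = ‖b - 2 * a‖ ^ 2 + ‖a‖ ^ 2 + 7 * ‖k 1 * p - k 0 * q‖ ^ 2
      + 3 * ‖c0 * p' + c1 * q'‖ ^ 2
      + 4 * N * (‖k 1 * d0 - k 0 * d1‖ ^ 2 + ‖k 1 * d1 - k 0 * d2‖ ^ 2) := by
  intro c0 c1 N p q p' q' a b d0 d1 d2
  rw [← Complex.ofReal_inj]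
  simp only [F, N, Complex.ofReal_mul, Complex.ofReal_add, Complex.ofReal_sub, Complex.ofReal_pow,
    Complex.ofReal_ofNat, ← Complex.mul_conj']
  simp only [a, b, d0, d1, d2, p, q, p', q', c0, c1, map_add, map_sub, map_mul, map_neg,
    Complex.conj_conj, map_ofNat]
  ring

lemma norm_pos_of_ne {k : Fin 2 → ℂ} (hk : k ≠ 0) : 0 < ‖k 0‖ ^ 2 + ‖k 1‖ ^ 2 := by
  by_contra h
  apply hk
  have h0 : ‖k 0‖ ^ 2 = 0 := by nlinarith [sq_nonneg ‖k 0‖, sq_nonneg ‖k 1‖]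
  have h1 : ‖k 1‖ ^ 2 = 0 := by nlinarith [sq_nonneg ‖k 0‖, sq_nonneg ‖k 1‖]
  funext i
  fin_cases i
  · simpa using h0
  · simpa using h1

lemma F_nonneg (k : Fin 2 → ℂ) (x : Fin 6 → ℂ) : 0 ≤ F k x := by
  by_cases hk : k = 0
  · subst hk
    simp [F]
  · have hN := norm_pos_of_ne hk
    have h := F_identity k x
    simp only at h
    have h2 : 0 ≤ (‖k 0‖ ^ 2 + ‖k 1‖ ^ 2) ^ 2 * F k x := by
      rw [h]
      positivity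
    exact nonneg_of_mul_nonneg_right h2 (by positivity)

/-- The zeros of the form. -/
lemma F_zero {k : Fin 2 → ℂ} {x : Fin 6 → ℂ} (hk : k ≠ 0) (hF : F k x = 0) :
    (conj (k 0) * x 0 + conj (k 1) * x 1 = 0 ∧ conj (k 0) * x 1 + conj (k 1) * x 2 = 0 ∧
      conj (k 0) * x 3 + conj (k 1) * x 4 = 0 ∧ conj (k 0) * x 4 + conj (k 1) * x 5 = 0) ∧
    (k 0 * x 0 + k 1 * x 3 = 0 ∧ k 0 * x 1 + k 1 * x 4 = 0 ∧ k 0 * x 2 + k 1 * x 5 = 0) := by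
  have hN := norm_pos_of_ne hk
  have h := F_identity k x
  simp only at h
  rw [hF, mul_zero] at h
  obtain ⟨c0, hc0⟩ : ∃ c, c = conj (k 0) := ⟨_, rfl⟩
  obtain ⟨c1, hc1⟩ : ∃ c, c = conj (k 1) := ⟨_, rfl⟩
  have hNc : ((‖k 0‖ ^ 2 + ‖k 1‖ ^ 2 : ℝ) : ℂ) = c0 * k 0 + c1 * k 1 := by
    rw [hc0, hc1]
    push_cast
    rw [← Complex.conj_mul', ← Complex.conj_mul']
  have hN0 : c0 * k 0 + c1 * k 1 ≠ 0 := by
    rw [← hNc]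
    exact_mod_cast hN.ne'
  rw [← hc0, ← hc1] at h ⊢
  obtain ⟨p, hp⟩ : ∃ p, p = k 0 * (c0 * x 0 + c1 * x 1) + k 1 * (c0 * x 3 + c1 * x 4) := ⟨_, rfl⟩
  obtain ⟨q, hq⟩ : ∃ q, q = k 0 * (c0 * x 1 + c1 * x 2) + k 1 * (c0 * x 4 + c1 * x 5) := ⟨_, rfl⟩
  obtain ⟨p', hp'⟩ : ∃ p', p' = -c1 * (c0 * x 0 + c1 * x 1) + c0 * (c0 * x 3 + c1 * x 4) :=
    ⟨_, rfl⟩
  obtain ⟨q', hq'⟩ : ∃ q', q' = -c1 * (c0 * x 1 + c1 * x 2) + c0 * (c0 * x 4 + c1 * x 5) :=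
    ⟨_, rfl⟩
  rw [← hp, ← hq, ← hp', ← hq'] at h
  have t1 := sq_nonneg ‖-k 1 * p' + k 0 * q' - 2 * (c0 * p + c1 * q)‖
  have t2 := sq_nonneg ‖c0 * p + c1 * q‖
  have t3 := sq_nonneg ‖k 1 * p - k 0 * q‖
  have t4 := sq_nonneg ‖c0 * p' + c1 * q'‖
  have t5 : 0 ≤ 4 * (‖k 0‖ ^ 2 + ‖k 1‖ ^ 2) * (‖k 1 * (k 0 * x 0 + k 1 * x 3) -
      k 0 * (k 0 * x 1 + k 1 * x 4)‖ ^ 2 + ‖k 1 * (k 0 * x 1 + k 1 * x 4) -
      k 0 * (k 0 * x 2 + k 1 * x 5)‖ ^ 2) := by positivity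
  have e1 : ‖-k 1 * p' + k 0 * q' - 2 * (c0 * p + c1 * q)‖ ^ 2 = 0 := by linarith
  have e2 : ‖c0 * p + c1 * q‖ ^ 2 = 0 := by linarith
  have e3 : ‖k 1 * p - k 0 * q‖ ^ 2 = 0 := by linarith
  have e4 : ‖c0 * p' + c1 * q'‖ ^ 2 = 0 := by linarith
  have e5 : 4 * (‖k 0‖ ^ 2 + ‖k 1‖ ^ 2) * (‖k 1 * (k 0 * x 0 + k 1 * x 3) -
      k 0 * (k 0 * x 1 + k 1 * x 4)‖ ^ 2 + ‖k 1 * (k 0 * x 1 + k 1 * x 4) -
      k 0 * (k 0 * x 2 + k 1 * x 5)‖ ^ 2) = 0 := by linarith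
  have e5' : ‖k 1 * (k 0 * x 0 + k 1 * x 3) -
      k 0 * (k 0 * x 1 + k 1 * x 4)‖ ^ 2 + ‖k 1 * (k 0 * x 1 + k 1 * x 4) -
      k 0 * (k 0 * x 2 + k 1 * x 5)‖ ^ 2 = 0 := by
    rcases mul_eq_zero.1 e5 with h | h
    · exfalso; linarith
    · exact h
  have e6 : ‖k 1 * (k 0 * x 0 + k 1 * x 3) - k 0 * (k 0 * x 1 + k 1 * x 4)‖ ^ 2 = 0 := by
    nlinarith [sq_nonneg ‖k 1 * (k 0 * x 0 + k 1 * x 3) - k 0 * (k 0 * x 1 + k 1 * x 4)‖,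
      sq_nonneg ‖k 1 * (k 0 * x 1 + k 1 * x 4) - k 0 * (k 0 * x 2 + k 1 * x 5)‖]
  have e7 : ‖k 1 * (k 0 * x 1 + k 1 * x 4) - k 0 * (k 0 * x 2 + k 1 * x 5)‖ ^ 2 = 0 := by
    nlinarith [sq_nonneg ‖k 1 * (k 0 * x 0 + k 1 * x 3) - k 0 * (k 0 * x 1 + k 1 * x 4)‖,
      sq_nonneg ‖k 1 * (k 0 * x 1 + k 1 * x 4) - k 0 * (k 0 * x 2 + k 1 * x 5)‖]
  have z : ∀ w : ℂ, ‖w‖ ^ 2 = 0 → w = 0 := fun w hw => by simpa using hw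
  have f1 := z _ e1
  have f2 := z _ e2
  have f3 := z _ e3
  have f4 := z _ e4
  have f6 := z _ e6
  have f7 := z _ e7
  have cancel : ∀ w : ℂ, (c0 * k 0 + c1 * k 1) * w = 0 → w = 0 := fun w hw =>
    (mul_eq_zero.1 hw).resolve_left hN0
  have gp : p = 0 := cancel _ (by linear_combination k 0 * f2 + c1 * f3)
  have gq : q = 0 := cancel _ (by linear_combination k 1 * f2 - c0 * f3)
  have f1' : -k 1 * p' + k 0 * q' = 0 := by linear_combination f1 + 2 * f2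
  have gp' : p' = 0 := cancel _ (by linear_combination k 0 * f4 - c1 * f1')
  have gq' : q' = 0 := cancel _ (by linear_combination k 1 * f4 + c0 * f1')
  rw [gp] at hp
  rw [gq] at hq
  rw [gp'] at hp'
  rw [gq'] at hq'
  have hp2 : c0 * (k 0 * x 0 + k 1 * x 3) + c1 * (k 0 * x 1 + k 1 * x 4) = 0 := by
    linear_combination -hp
  have hq2 : c0 * (k 0 * x 1 + k 1 * x 4) + c1 * (k 0 * x 2 + k 1 * x 5) = 0 := by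
    linear_combination -hq
  refine ⟨⟨?_, ?_, ?_, ?_⟩, ?_, ?_, ?_⟩
  · exact cancel _ (by linear_combination (-c0) * hp + k 1 * hp')
  · exact cancel _ (by linear_combination (-c0) * hq + k 1 * hq')
  · exact cancel _ (by linear_combination (-c1) * hp - k 0 * hp')
  · exact cancel _ (by linear_combination (-c1) * hq - k 0 * hq')
  · exact cancel _ (by linear_combination k 0 * hp2 + c1 * f6)
  · exact cancel _ (by linear_combination k 1 * hp2 - c0 * f6)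
  · exact cancel _ (by linear_combination k 1 * hq2 - c0 * f7)

end Pool.Agent.Q213.CLP
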