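import Mathlib

/-!
Unital positive isometries between spaces of hermitian matrices, and generalized CLP isometries.
A map `H_n → H_k` is represented by a function on `n × n` complex matrices, of which only the
values at hermitian matrices matter.
-/

namespace Pool.Agent.Q213.CLP

open Matrix
open scoped Kronecker Matrix.Norms.L2Operator ComplexOrder

/-- `Φ` restricts to a unital positive real-linear map `H_n → H_k`. -/
structure IsUnitalPositive {n k : ℕ}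
    (Φ : Matrix (Fin n) (Fin n) ℂ → Matrix (Fin k) (Fin k) ℂ) : Prop where
  herm : ∀ X, X.IsHermitian → (Φ X).IsHermitian
  add : ∀ X Y, X.IsHermitian → Y.IsHermitian → Φ (X + Y) = Φ X + Φ Y
  smul : ∀ (c : ℝ) X, X.IsHermitian → Φ (c • X) = c • Φ X
  unital : Φ 1 = 1
  pos : ∀ X, X.PosSemidef → (Φ X).PosSemidef

/-- `Φ` preserves the operator norm of hermitian matrices. -/
def IsIsometric {n k : ℕ} (Φ : Matrix (Fin n) (Fin n) ℂ → Matrix (Fin k) (Fin k) ℂ) : Prop :=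
  ∀ X, X.IsHermitian → ‖Φ X‖ = ‖X‖

/-- The block diagonal matrix `(X ⊗ I_α) ⊕ (Xᵗ ⊗ I_β) ⊕ Y`. -/
def blockSum {n α β ζ : ℕ} (X : Matrix (Fin n) (Fin n) ℂ) (Y : Matrix (Fin ζ) (Fin ζ) ℂ) :
    Matrix ((Fin n × Fin α) ⊕ (Fin n × Fin β) ⊕ Fin ζ)
      ((Fin n × Fin α) ⊕ (Fin n × Fin β) ⊕ Fin ζ) ℂ :=
  fromBlocks (X ⊗ₖ 1) 0 0 (fromBlocks (Xᵀ ⊗ₖ 1) 0 0 Y)

/-- For every `h ≠ 0` the range of `V` contains a nonzero vector
`(h ⊗ h₁) ⊕ (conj h ⊗ h₂) ⊕ 0` (when `V` is injective). -/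
def MeetsFibres {n α β ζ k : ℕ}
    (V : Matrix ((Fin n × Fin α) ⊕ (Fin n × Fin β) ⊕ Fin ζ) (Fin k) ℂ) : Prop :=
  ∀ h : Fin n → ℂ, h ≠ 0 → ∃ (h₁ : Fin α → ℂ) (h₂ : Fin β → ℂ) (w : Fin k → ℂ), w ≠ 0 ∧
    V *ᵥ w = Sum.elim (fun p => h p.1 * h₁ p.2) (Sum.elim (fun p => star (h p.1) * h₂ p.2) 0)

/-- `Φ` is a generalized CLP isometry: `Φ X = V* ((X ⊗ I_α) ⊕ (Xᵗ ⊗ I_β) ⊕ f X) V` with `V`
an isometry, `f` unital positive, and the range of `V` meeting all the fibres. -/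
def IsGeneralizedCLP {n k : ℕ} (Φ : Matrix (Fin n) (Fin n) ℂ → Matrix (Fin k) (Fin k) ℂ) :
    Prop :=
  ∃ (α β ζ : ℕ) (f : Matrix (Fin n) (Fin n) ℂ → Matrix (Fin ζ) (Fin ζ) ℂ)
    (V : Matrix ((Fin n × Fin α) ⊕ (Fin n × Fin β) ⊕ Fin ζ) (Fin k) ℂ),
    IsUnitalPositive f ∧ Vᴴ * V = 1 ∧ MeetsFibres V ∧
      ∀ X, X.IsHermitian → Φ X = Vᴴ * blockSum (α := α) (β := β) X (f X) * V

end Pool.Agent.Q213.CLP
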