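import Pool.Agent.Q213.CLP.Pos
import Pool.Agent.Q213.CLP.Defs

/-!
The map is not of generalized CLP form.
-/

namespace Pool.Agent.Q213.CLP

open Matrix ComplexConjugate
open scoped MatrixOrder ComplexOrder Kronecker

/-- Coefficients of a quartic vanishing at five integers. -/
lemma quartic {a0 a1 a2 a3 a4 : ℂ}
    (h : ∀ t : ℝ, a0 + a1 * t + a2 * t ^ 2 + a3 * t ^ 3 + a4 * t ^ 4 = 0) :
    a1 = 0 ∧ a2 = 0 ∧ a3 = 0 := by
  have h0 := h 0
  have h1 := h 1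
  have h2 := h (-1)
  have h3 := h 2
  have h4 := h (-2)
  push_cast at h0 h1 h2 h3 h4
  refine ⟨?_, ?_, ?_⟩
  · linear_combination (8 / 12 : ℂ) * h1 - (8 / 12 : ℂ) * h2 - (1 / 12 : ℂ) * h3 + (1 / 12 : ℂ) * h4
  · linear_combination (16 / 24 : ℂ) * h1 + (16 / 24 : ℂ) * h2 - (1 / 24 : ℂ) * h3
      - (1 / 24 : ℂ) * h4 - (30 / 24 : ℂ) * h0
  · linear_combination (-2 / 12 : ℂ) * h1 + (2 / 12 : ℂ) * h2 + (1 / 12 : ℂ) * h3
      - (1 / 12 : ℂ) * h4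

/-- Coefficient extraction for polynomials in `z` and its conjugate. -/
lemma extract {c00 c10 c01 c20 c11 c02 c30 c21 c12 c31 c22 : ℂ}
    (h : ∀ z : ℂ, c00 + c10 * z + c01 * conj z + c20 * z ^ 2 + c11 * (z * conj z)
      + c02 * conj z ^ 2 + c30 * z ^ 3 + c21 * (z ^ 2 * conj z) + c12 * (z * conj z ^ 2)
      + c31 * (z ^ 3 * conj z) + c22 * (z ^ 2 * conj z ^ 2) = 0) :
    c10 = 0 ∧ c01 = 0 ∧ c20 = 0 ∧ c11 = 0 ∧ c02 = 0 ∧ c21 = 0 ∧ c30 = 0 ∧ c12 = 0 := by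
  obtain ⟨I, hI⟩ : ∃ I : ℂ, I = Complex.I := ⟨_, rfl⟩
  have I2 : I * I = -1 := by rw [hI]; exact Complex.I_mul_I
  have cI : conj I = -I := by rw [hI]; exact Complex.conj_I
  obtain ⟨u1, u2, u3⟩ := quartic (a0 := c00) (a1 := c10 + c01) (a2 := c20 + c11 + c02)
    (a3 := c30 + c21 + c12) (a4 := c31 + c22) (fun t => by
      have := h (t : ℂ)
      rw [Complex.conj_ofReal] at this
      linear_combination this)
  obtain ⟨v1, v2, v3⟩ := quartic (a0 := c00) (a1 := I * c10 - I * c01)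
    (a2 := -c20 + c11 - c02) (a3 := -I * c30 + I * c21 - I * c12)
    (a4 := -c31 + c22) (fun t => by
      have := h (t * I)
      rw [map_mul, Complex.conj_ofReal, cI] at this
      linear_combination this + (-c20 * t ^ 2 + c11 * t ^ 2 - c02 * t ^ 2 - I * c30 * t ^ 3
        + I * c21 * t ^ 3 - I * c12 * t ^ 3 - c31 * t ^ 4 * (1 - I ^ 2)
        + c22 * t ^ 4 * (1 - I ^ 2)) * I2)
  obtain ⟨w1, w2, w3⟩ := quartic (a0 := c00) (a1 := (1 + I) * c10 + (1 - I) * c01)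
    (a2 := (1 + I) ^ 2 * c20 + (1 + I) * (1 - I) * c11 + (1 - I) ^ 2 * c02)
    (a3 := (1 + I) ^ 3 * c30 + (1 + I) ^ 2 * (1 - I) * c21 + (1 + I) * (1 - I) ^ 2 * c12)
    (a4 := (1 + I) ^ 3 * (1 - I) * c31 + (1 + I) ^ 2 * (1 - I) ^ 2 * c22) (fun t => by
      have := h (t * (1 + I))
      rw [map_mul, Complex.conj_ofReal, map_add, map_one, cI] at this
      linear_combination this)
  have r1 : c10 = 0 := by
    linear_combination (1 / 2 : ℂ) * u1 - (I / 2) * v1 + (1 / 2 : ℂ) * (c10 - c01) * I2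
  have r2 : c01 = 0 := by linear_combination u1 - r1
  have r3 : c11 = 0 := by linear_combination (1 / 2 : ℂ) * u2 + (1 / 2 : ℂ) * v2
  have r4 : c20 + c02 = 0 := by linear_combination u2 - r3
  -- `(1+I)² = 2I`, `(1-I)² = -2I`
  have r5 : c20 - c02 = 0 := by
    linear_combination (-I / 2) * w2 + (I / 2) * (1 + I) * (1 - I) * r3
      + ((c20 - c02) - (I / 2) * (-c20 - c02) ) * I2
  have r6 : c20 = 0 := by linear_combination (1 / 2 : ℂ) * r4 + (1 / 2 : ℂ) * r5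
  have r7 : c02 = 0 := by linear_combination r4 - r6
  have r8 : c21 = 0 := by
    linear_combination (1 / 2 : ℂ) * u3 - (I / 2) * v3 + (1 / 2 : ℂ) * (c21 - c30 - c12) * I2
  have r9 : c30 + c12 = 0 := by linear_combination u3 - r8
  have r10 : c30 - c12 = 0 := by
    linear_combination ((-2 - 2 * I) / 8) * w3 - ((-2 - 2 * I) / 8) * (1 + I) ^ 2 * (1 - I) * r8
      + (1 / 4 : ℂ) * ((I ^ 2 + 4 * I + 5) * c30 + (I ^ 2 - 3) * c12) * I2
  have r11 : c30 = 0 := by linear_combination (1 / 2 : ℂ) * r9 + (1 / 2 : ℂ) * r10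
  exact ⟨r1, r2, r6, r3, r7, r8, r11, by linear_combination r9 - r11⟩

/-- Three columns of a row annihilated by all `xi (1, z)` vanish. -/
lemma bottom {r : Fin 6 → ℂ} (h : ∀ z : ℂ, r ⬝ᵥ xi ![1, z] = 0) : r 1 = 0 ∧ r 2 = 0 ∧ r 4 = 0 := by
  have := extract (c00 := r 0) (c10 := r 1) (c01 := r 3) (c20 := r 2) (c11 := r 4) (c02 := 0)
    (c30 := 0) (c21 := r 5) (c12 := 0) (c31 := 0) (c22 := 0) (fun z => by
      have hz := h z
      simp [dotProduct, Fin.sum_univ_succ, xi] at hz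
      linear_combination hz)
  exact ⟨this.1, this.2.2.1, this.2.2.2.1⟩

/-- Relations for the rows of type `X ⊗ I`. -/
lemma top {a b : Fin 6 → ℂ} (h : ∀ z : ℂ, b ⬝ᵥ xi ![1, z] = z * (a ⬝ᵥ xi ![1, z])) :
    b 2 = a 1 := by
  have := extract (c00 := b 0) (c10 := b 1 - a 0) (c01 := b 3) (c20 := b 2 - a 1)
    (c11 := b 4 - a 3) (c02 := 0)
    (c30 := -a 2) (c21 := b 5 - a 4) (c12 := 0) (c31 := -a 5) (c22 := 0) (fun z => by
      have hz := h z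
      simp [dotProduct, Fin.sum_univ_succ, xi] at hz
      linear_combination hz)
  exact sub_eq_zero.1 this.2.2.1

/-- Relations for the rows of type `Xᵗ ⊗ I`. -/
lemma middle {a b : Fin 6 → ℂ} (h : ∀ z : ℂ, b ⬝ᵥ xi ![1, z] = conj z * (a ⬝ᵥ xi ![1, z])) :
    b 1 = 0 ∧ a 4 = 0 ∧ b 4 = a 1 ∧ b 2 = 0 := by
  have := extract (c00 := b 0) (c10 := b 1) (c01 := b 3 - a 0) (c20 := b 2)
    (c11 := b 4 - a 1) (c02 := -a 3)
    (c30 := 0) (c21 := b 5 - a 2) (c12 := -a 4) (c31 := 0) (c22 := -a 5) (fun z => by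
      have hz := h z
      simp [dotProduct, Fin.sum_univ_succ, xi] at hz
      linear_combination hz)
  obtain ⟨h1, -, h3, h4, -, -, -, h8⟩ := this
  exact ⟨h1, neg_eq_zero.1 h8, sub_eq_zero.1 h4, h3⟩

lemma kmul {α : ℕ} (X : Matrix (Fin 2) (Fin 2) ℂ) (x : Fin 2 × Fin α → ℂ) :
    (X ⊗ₖ (1 : Matrix (Fin α) (Fin α) ℂ)) *ᵥ x =
      fun p => X p.1 0 * x (0, p.2) + X p.1 1 * x (1, p.2) := by
  ext ⟨a, i⟩
  simp [mulVec, dotProduct, Fintype.sum_prod_type, Fin.sum_univ_two, one_apply]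

section

variable {α β ζ : ℕ} {W : Matrix ((Fin 2 × Fin α) ⊕ (Fin 2 × Fin β) ⊕ Fin ζ) (Fin 6) ℂ}
  {f : Matrix (Fin 2) (Fin 2) ℂ → Matrix (Fin ζ) (Fin ζ) ℂ}

/-- The fibre vectors over `(1, z)` are the multiples of `xi (1, z)`. -/
lemma fibre (H1 : ∀ X, X.IsHermitian → Phi0 X = Wᴴ * blockSum (α := α) (β := β) X (f X) * W)
    (H2 : MeetsFibres W) (z : ℂ) : ∃ (g₁ : Fin α → ℂ) (g₂ : Fin β → ℂ),
      W *ᵥ xi ![1, z] = Sum.elim (fun p => (![1, z] : Fin 2 → ℂ) p.1 * g₁ p.2)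
        (Sum.elim (fun p => star ((![1, z] : Fin 2 → ℂ) p.1) * g₂ p.2) 0) := by
  have hh : (![1, z] : Fin 2 → ℂ) ≠ 0 := fun h0 => by simpa using congrFun h0 0
  obtain ⟨h₁, h₂, w, hw, hW⟩ := H2 ![1, z] hh
  have hk : Phi0 (vecMulVec (perp ![1, z]) (star (perp ![1, z]))) *ᵥ w = 0 := by
    rw [H1 _ (herm_vecMulVec _), ← mulVec_mulVec, ← mulVec_mulVec, hW, blockSum,
      fromBlocks_mulVec]
    have z1 : (vecMulVec (perp ![1, z]) (star (perp ![1, z])) ⊗ₖ (1 : Matrix (Fin α) (Fin α) ℂ)) *ᵥ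
        (fun p : Fin 2 × Fin α => (![1, z] : Fin 2 → ℂ) p.1 * h₁ p.2) = 0 := by
      rw [kmul]
      ext ⟨a, i⟩
      simp only [vecMulVec_apply, Pi.star_apply, Pi.zero_apply]
      simp [perp]
      ring
    have z2 : ((vecMulVec (perp ![1, z]) (star (perp ![1, z])))ᵀ ⊗ₖ
        (1 : Matrix (Fin β) (Fin β) ℂ)) *ᵥ
        (fun p : Fin 2 × Fin β => star ((![1, z] : Fin 2 → ℂ) p.1) * h₂ p.2) = 0 := by
      rw [kmul]
      ext ⟨a, i⟩
      simp only [vecMulVec_apply, Pi.star_apply, Pi.zero_apply, transpose_apply]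
      simp [perp]
      ring
    have e1 : (Sum.elim (fun p : Fin 2 × Fin α => (![1, z] : Fin 2 → ℂ) p.1 * h₁ p.2)
        (Sum.elim (fun p : Fin 2 × Fin β => star ((![1, z] : Fin 2 → ℂ) p.1) * h₂ p.2)
          (0 : Fin ζ → ℂ))) ∘ Sum.inl = fun p => (![1, z] : Fin 2 → ℂ) p.1 * h₁ p.2 := rfl
    have e2 : (Sum.elim (fun p : Fin 2 × Fin α => (![1, z] : Fin 2 → ℂ) p.1 * h₁ p.2)
        (Sum.elim (fun p : Fin 2 × Fin β => star ((![1, z] : Fin 2 → ℂ) p.1) * h₂ p.2)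
          (0 : Fin ζ → ℂ))) ∘ Sum.inr =
        Sum.elim (fun p : Fin 2 × Fin β => star ((![1, z] : Fin 2 → ℂ) p.1) * h₂ p.2) 0 := rfl
    have e3 : (Sum.elim (fun p : Fin 2 × Fin β => star ((![1, z] : Fin 2 → ℂ) p.1) * h₂ p.2)
          (0 : Fin ζ → ℂ)) ∘ Sum.inl =
        fun p => star ((![1, z] : Fin 2 → ℂ) p.1) * h₂ p.2 := rfl
    have e4 : (Sum.elim (fun p : Fin 2 × Fin β => star ((![1, z] : Fin 2 → ℂ) p.1) * h₂ p.2)
          (0 : Fin ζ → ℂ)) ∘ Sum.inr = 0 := rfl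
    rw [e1, e2, fromBlocks_mulVec, e3, e4, z1, z2]
    have e5 : (Sum.elim (0 + 0 *ᵥ Sum.elim (fun p : Fin 2 × Fin β =>
        star ((![1, z] : Fin 2 → ℂ) p.1) * h₂ p.2) (0 : Fin ζ → ℂ))
        (0 *ᵥ (fun p : Fin 2 × Fin α => (![1, z] : Fin 2 → ℂ) p.1 * h₁ p.2) +
          Sum.elim (0 + 0 *ᵥ (0 : Fin ζ → ℂ)) (0 *ᵥ (fun p : Fin 2 × Fin β =>
            star ((![1, z] : Fin 2 → ℂ) p.1) * h₂ p.2) + f (vecMulVec (perp ![1, z])
              (star (perp ![1, z]))) *ᵥ 0)) :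
        (Fin 2 × Fin α) ⊕ (Fin 2 × Fin β) ⊕ Fin ζ → ℂ) = 0 := by
      simp only [zero_mulVec, mulVec_zero, add_zero, zero_add]
      ext (p | p | p) <;> rfl
    rw [e5, mulVec_zero]
  have hF := ker_span z (F_of_ker hk)
  have hw0 : w 0 ≠ 0 := by
    intro h0
    rw [h0, zero_smul] at hF
    exact hw hF
  refine ⟨(w 0)⁻¹ • h₁, (w 0)⁻¹ • h₂, ?_⟩
  have hx : xi ![1, z] = (w 0)⁻¹ • w := by
    nth_rewrite 2 [hF]
    rw [smul_smul, inv_mul_cancel₀ hw0, one_smul]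
  rw [hx, mulVec_smul, hW]
  ext (p | p | p)
  · simp only [Pi.smul_apply, Sum.elim_inl, smul_eq_mul]
    ring
  · simp only [Pi.smul_apply, Sum.elim_inl, Sum.elim_inr, smul_eq_mul]
    ring
  · simp

lemma blockSum_mulVec (X : Matrix (Fin 2) (Fin 2) ℂ) (Y : Matrix (Fin ζ) (Fin ζ) ℂ)
    (c : (Fin 2 × Fin α) ⊕ (Fin 2 × Fin β) ⊕ Fin ζ → ℂ) (hc : ∀ l, c (Sum.inr (Sum.inr l)) = 0) :
    blockSum (α := α) (β := β) X Y *ᵥ c =
      Sum.elim (fun p => X p.1 0 * c (Sum.inl (0, p.2)) + X p.1 1 * c (Sum.inl (1, p.2)))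
        (Sum.elim (fun p => X 0 p.1 * c (Sum.inr (Sum.inl (0, p.2))) +
          X 1 p.1 * c (Sum.inr (Sum.inl (1, p.2)))) 0) := by
  have e4 : (c ∘ Sum.inr) ∘ Sum.inr = (0 : Fin ζ → ℂ) := by
    ext l
    exact hc l
  rw [blockSum, fromBlocks_mulVec, fromBlocks_mulVec, kmul, kmul, e4]
  simp only [zero_mulVec, mulVec_zero, add_zero, zero_add]
  rfl

/-- Entries of `Wᴴ * blockSum X Y * W`. -/
lemma entry (X : Matrix (Fin 2) (Fin 2) ℂ) (Y : Matrix (Fin ζ) (Fin ζ) ℂ) (s t : Fin 6)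
    (ht : ∀ l, W (Sum.inr (Sum.inr l)) t = 0) :
    (Wᴴ * blockSum (α := α) (β := β) X Y * W) s t =
      ∑ i, (star (W (Sum.inl (0, i)) s) * (X 0 0 * W (Sum.inl (0, i)) t + X 0 1 * W (Sum.inl (1, i)) t)
        + star (W (Sum.inl (1, i)) s) * (X 1 0 * W (Sum.inl (0, i)) t + X 1 1 * W (Sum.inl (1, i)) t))
      + ∑ j, (star (W (Sum.inr (Sum.inl (0, j))) s) *
            (X 0 0 * W (Sum.inr (Sum.inl (0, j))) t + X 1 0 * W (Sum.inr (Sum.inl (1, j))) t)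
          + star (W (Sum.inr (Sum.inl (1, j))) s) *
            (X 0 1 * W (Sum.inr (Sum.inl (0, j))) t + X 1 1 * W (Sum.inr (Sum.inl (1, j))) t)) := by
  have h1 : (Wᴴ * blockSum (α := α) (β := β) X Y * W) s t =
      (fun p => star (W p s)) ⬝ᵥ (blockSum (α := α) (β := β) X Y *ᵥ (fun p => W p t)) := by
    rw [Matrix.mul_assoc, Matrix.mul_apply]
    rfl
  rw [h1, blockSum_mulVec X Y _ ht]
  simp only [dotProduct, Fintype.sum_sum_type, Sum.elim_inl, Sum.elim_inr, Fintype.sum_prod_type,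
    Fin.sum_univ_two, Pi.zero_apply, mul_zero, Finset.sum_const_zero, add_zero,
    Finset.sum_add_distrib]

/-- The five entries of `Phi0` used in the argument. -/
lemma phi_22 : Phi0 !![0, 0; 0, 1] 1 1 = 1 ∧ Phi0 !![0, 0; 0, 1] 2 2 = 3 := by
  constructor <;>
  · simp [Phi0, cj, A11, A21, A12, A22, A0, B0, B1, B2, Matrix.mul_apply, Fin.sum_univ_succ]
    try norm_num

lemma phi_11 : Phi0 !![1, 0; 0, 0] 4 4 = 1 ∧ Phi0 !![1, 0; 0, 0] 1 1 = 11 := by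
  constructor <;>
  · simp [Phi0, cj, A11, A21, A12, A22, A0, B0, B1, B2, Matrix.mul_apply, Fin.sum_univ_succ]
    try norm_num

lemma phi_x : Phi0 !![0, 1; 1, 0] 1 4 = 6 := by
  simp [Phi0, cj, A11, A21, A12, A22, A0, B0, B1, B2, Matrix.mul_apply, Fin.sum_univ_succ]
  try norm_num

lemma phi_y : Phi0 !![0, -Complex.I; Complex.I, 0] 1 4 = 6 * Complex.I := by
  simp [Phi0, cj, A11, A21, A12, A22, A0, B0, B1, B2, Matrix.mul_apply, Fin.sum_univ_succ]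
  try ring

/-- `Phi0` is not of generalized CLP form. -/
theorem no_form
    (H1 : ∀ X, X.IsHermitian → Phi0 X = Wᴴ * blockSum (α := α) (β := β) X (f X) * W)
    (H2 : MeetsFibres W) : False := by
  have hbot : ∀ l, W (Sum.inr (Sum.inr l)) 1 = 0 ∧ W (Sum.inr (Sum.inr l)) 2 = 0 ∧
      W (Sum.inr (Sum.inr l)) 4 = 0 := by
    intro l
    refine bottom (r := W (Sum.inr (Sum.inr l))) fun z => ?_
    obtain ⟨g₁, g₂, hg⟩ := fibre H1 H2 z
    exact congrFun hg (Sum.inr (Sum.inr l))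
  have htop : ∀ i, W (Sum.inl (1, i)) 2 = W (Sum.inl (0, i)) 1 := by
    intro i
    refine top (a := W (Sum.inl (0, i))) (b := W (Sum.inl (1, i))) fun z => ?_
    obtain ⟨g₁, g₂, hg⟩ := fibre H1 H2 z
    have e1 : W (Sum.inl (1, i)) ⬝ᵥ xi ![1, z] = z * g₁ i := by
      refine (congrFun hg (Sum.inl (1, i))).trans ?_
      simp
    have e2 : W (Sum.inl (0, i)) ⬝ᵥ xi ![1, z] = g₁ i := by
      refine (congrFun hg (Sum.inl (0, i))).trans ?_
      simp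
    rw [e1, e2]
  have hmid : ∀ j, W (Sum.inr (Sum.inl (1, j))) 1 = 0 ∧ W (Sum.inr (Sum.inl (0, j))) 4 = 0 ∧
      W (Sum.inr (Sum.inl (1, j))) 4 = W (Sum.inr (Sum.inl (0, j))) 1 ∧
      W (Sum.inr (Sum.inl (1, j))) 2 = 0 := by
    intro j
    refine middle (a := W (Sum.inr (Sum.inl (0, j)))) (b := W (Sum.inr (Sum.inl (1, j))))
      fun z => ?_
    obtain ⟨g₁, g₂, hg⟩ := fibre H1 H2 z
    have e1 : W (Sum.inr (Sum.inl (1, j))) ⬝ᵥ xi ![1, z] = conj z * g₂ j := by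
      refine (congrFun hg (Sum.inr (Sum.inl (1, j)))).trans ?_
      simp
    have e2 : W (Sum.inr (Sum.inl (0, j))) ⬝ᵥ xi ![1, z] = g₂ j := by
      refine (congrFun hg (Sum.inr (Sum.inl (0, j)))).trans ?_
      simp
    rw [e1, e2]
  have k22 : (!![0, 0; 0, 1] : Matrix (Fin 2) (Fin 2) ℂ).IsHermitian := by
    ext i j
    fin_cases i <;> fin_cases j <;> simp
  have k11 : (!![1, 0; 0, 0] : Matrix (Fin 2) (Fin 2) ℂ).IsHermitian := by
    ext i j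
    fin_cases i <;> fin_cases j <;> simp
  have kx : (!![0, 1; 1, 0] : Matrix (Fin 2) (Fin 2) ℂ).IsHermitian := by
    ext i j
    fin_cases i <;> fin_cases j <;> simp
  have ky : (!![0, -Complex.I; Complex.I, 0] : Matrix (Fin 2) (Fin 2) ℂ).IsHermitian := by
    ext i j
    fin_cases i <;> fin_cases j <;> simp
  have q1 := phi_22.1
  have q2 := phi_22.2
  have q3 := phi_11.1
  have q4 := phi_11.2
  have q5 := phi_x
  have q6 := phi_y
  rw [H1 _ k22, entry _ _ _ _ (fun l => (hbot l).1)] at q1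
  rw [H1 _ k22, entry _ _ _ _ (fun l => (hbot l).2.1)] at q2
  rw [H1 _ k11, entry _ _ _ _ (fun l => (hbot l).2.2)] at q3
  rw [H1 _ k11, entry _ _ _ _ (fun l => (hbot l).1)] at q4
  rw [H1 _ kx, entry _ _ _ _ (fun l => (hbot l).2.2)] at q5
  rw [H1 _ ky, entry _ _ _ _ (fun l => (hbot l).2.2)] at q6
  simp only [of_apply, cons_val', cons_val_zero, cons_val_one, cons_val_fin_one, zero_mul, one_mul,
    add_zero, zero_add, mul_zero, (fun j => (hmid j).1), (fun j => (hmid j).2.1),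
    (fun j => (hmid j).2.2.1), (fun j => (hmid j).2.2.2), htop, Finset.sum_const_zero] at q1 q2 q3 q4 q5 q6
  have s5 : ∑ x, (star (W (Sum.inl (0, x)) 1) * W (Sum.inl (1, x)) 4 +
      star (W (Sum.inl (1, x)) 1) * W (Sum.inl (0, x)) 4) =
      ∑ x, star (W (Sum.inl (0, x)) 1) * W (Sum.inl (1, x)) 4 +
      ∑ x, star (W (Sum.inl (1, x)) 1) * W (Sum.inl (0, x)) 4 := Finset.sum_add_distrib
  have s6 : ∑ x, (star (W (Sum.inl (0, x)) 1) * (-Complex.I * W (Sum.inl (1, x)) 4) +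
          star (W (Sum.inl (1, x)) 1) * (Complex.I * W (Sum.inl (0, x)) 4)) =
      -Complex.I * ∑ x, star (W (Sum.inl (0, x)) 1) * W (Sum.inl (1, x)) 4 +
      Complex.I * ∑ x, star (W (Sum.inl (1, x)) 1) * W (Sum.inl (0, x)) 4 := by
    rw [Finset.mul_sum, Finset.mul_sum, ← Finset.sum_add_distrib]
    refine Finset.sum_congr rfl fun x _ => ?_
    ring
  have s7 : ∑ x, star (W (Sum.inr (Sum.inl (0, x))) 1) *
      (Complex.I * W (Sum.inr (Sum.inl (0, x))) 1) =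
      Complex.I * ∑ x, star (W (Sum.inr (Sum.inl (0, x))) 1) * W (Sum.inr (Sum.inl (0, x))) 1 := by
    rw [Finset.mul_sum]
    refine Finset.sum_congr rfl fun x _ => ?_
    ring
  rw [s5] at q5
  rw [s6, s7] at q6
  obtain ⟨P, hP⟩ : ∃ P, P = ∑ x, star (W (Sum.inl (0, x)) 1) * W (Sum.inl (1, x)) 4 := ⟨_, rfl⟩
  obtain ⟨Q, hQ⟩ : ∃ Q, Q = ∑ x, star (W (Sum.inl (1, x)) 1) * W (Sum.inl (0, x)) 4 := ⟨_, rfl⟩
  obtain ⟨R, hR⟩ : ∃ R, R = ∑ x, star (W (Sum.inr (Sum.inl (0, x))) 1) *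
    W (Sum.inr (Sum.inl (0, x))) 1 := ⟨_, rfl⟩
  rw [← hP, ← hQ, ← hR] at q5 q6
  rw [q2, ← hR] at q4
  have I2 : Complex.I * Complex.I = -1 := Complex.I_mul_I
  have hQ2 : Q = -2 := by
    have r1 : R = 8 := by linear_combination q4
    have r2 : -P + Q + R = 6 := by
      linear_combination (-Complex.I) * q6 + (-P + Q + R - 6) * I2
    linear_combination (1 / 2 : ℂ) * q5 + (1 / 2 : ℂ) * r2 - r1
  have hsq : ∑ x, star (W (Sum.inl (1, x)) 1 + W (Sum.inl (0, x)) 4) *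
      (W (Sum.inl (1, x)) 1 + W (Sum.inl (0, x)) 4) = -2 := by
    have e1 : ∀ x, star (W (Sum.inl (1, x)) 1 + W (Sum.inl (0, x)) 4) *
        (W (Sum.inl (1, x)) 1 + W (Sum.inl (0, x)) 4) =
        star (W (Sum.inl (1, x)) 1) * W (Sum.inl (1, x)) 1 +
        star (W (Sum.inl (0, x)) 4) * W (Sum.inl (0, x)) 4 +
        star (W (Sum.inl (1, x)) 1) * W (Sum.inl (0, x)) 4 +
        star (star (W (Sum.inl (1, x)) 1) * W (Sum.inl (0, x)) 4) := by
      intro x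
      rw [star_add, star_mul', star_star]
      ring
    simp only [e1, Finset.sum_add_distrib]
    rw [q1, q3, ← star_sum, ← hQ, hQ2]
    simp
    norm_num
  have hpos : 0 ≤ (∑ x, star (W (Sum.inl (1, x)) 1 + W (Sum.inl (0, x)) 4) *
      (W (Sum.inl (1, x)) 1 + W (Sum.inl (0, x)) 4)).re := by
    rw [Complex.re_sum]
    refine Finset.sum_nonneg fun x _ => ?_
    rw [mul_comm, nsq, Complex.ofReal_re]
    positivity
  rw [hsq] at hpos
  norm_num at hpos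

end

end Pool.Agent.Q213.CLP
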