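import Pool.Agent.Q213.CLP.Core

/-!
Positivity of `Phi0`, its kernels, and the normalisation.
-/

namespace Pool.Agent.Q213.CLP

open Matrix ComplexConjugate
open scoped MatrixOrder ComplexOrder

/-- The kernel vector attached to `h`. -/
noncomputable def xi (h : Fin 2 → ℂ) : Fin 6 → ℂ :=
  ![h 0 ^ 2 * conj (h 0), h 0 * h 1 * conj (h 0), h 1 ^ 2 * conj (h 0),
    h 0 ^ 2 * conj (h 1), h 0 * h 1 * conj (h 1), h 1 ^ 2 * conj (h 1)]

/-- A vector orthogonal to `h`. -/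
noncomputable def perp (h : Fin 2 → ℂ) : Fin 2 → ℂ := ![-conj (h 1), conj (h 0)]

lemma perp_ne {h : Fin 2 → ℂ} (hh : h ≠ 0) : perp h ≠ 0 := by
  intro h0
  apply hh
  have e0 := congrFun h0 0
  have e1 := congrFun h0 1
  simp [perp] at e0 e1
  funext i
  fin_cases i
  · simpa using e1
  · simpa using e0

lemma F_perp (h : Fin 2 → ℂ) : F (perp h) (xi h) = 0 := by
  simp only [F, perp, xi]
  simp
  ring_nf
  simp

lemma herm_vecMulVec {n : ℕ} (k : Fin n → ℂ) : (vecMulVec k (star k)).IsHermitian := by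
  ext i j
  simp [vecMulVec_apply, mul_comm]

lemma Phi0_rank_one (k : Fin 2 → ℂ) : (Phi0 (vecMulVec k (star k))).PosSemidef := by
  refine .of_dotProduct_mulVec_nonneg ?_ fun x => ?_
  · rw [IsHermitian, Phi0_conjTranspose, herm_vecMulVec]
  · rw [Phi0_form]
    exact_mod_cast F_nonneg k x

lemma sum_rank_one (B : Matrix (Fin 2) (Fin 2) ℂ) :
    Bᴴ * B = vecMulVec (star (B 0)) (star (star (B 0))) +
      vecMulVec (star (B 1)) (star (star (B 1))) := by
  ext i j
  simp [Matrix.mul_apply, Fin.sum_univ_two, vecMulVec_apply]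

lemma Phi0_pos {X : Matrix (Fin 2) (Fin 2) ℂ} (hX : X.PosSemidef) : (Phi0 X).PosSemidef := by
  obtain ⟨B, rfl⟩ := CStarAlgebra.nonneg_iff_eq_star_mul_self.mp hX.nonneg
  rw [star_eq_conjTranspose, sum_rank_one, Phi0_add]
  exact (Phi0_rank_one _).add (Phi0_rank_one _)

lemma Phi0_ker (h : Fin 2 → ℂ) : Phi0 (vecMulVec (perp h) (star (perp h))) *ᵥ xi h = 0 := by
  rw [← (Phi0_rank_one (perp h)).dotProduct_mulVec_zero_iff, Phi0_form, F_perp]
  simp

lemma F_of_ker {k : Fin 2 → ℂ} {x : Fin 6 → ℂ} (h : Phi0 (vecMulVec k (star k)) *ᵥ x = 0) :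
    F k x = 0 := by
  have := Phi0_form k x
  rw [h, dotProduct_zero] at this
  exact_mod_cast this.symm

/-- The kernel at `(1, z)` is spanned by `xi (1, z)`. -/
lemma ker_span (z : ℂ) {x : Fin 6 → ℂ} (h : F (perp ![1, z]) x = 0) : x = x 0 • xi ![1, z] := by
  have hne : perp ![1, z] ≠ 0 := perp_ne (fun h0 => by simpa using congrFun h0 0)
  obtain ⟨⟨h1, h2, h3, h4⟩, h5, h6, h7⟩ := F_zero hne h
  simp [perp] at h1 h2 h3 h4 h5 h6 h7
  have g1 : x 1 = z * x 0 := by linear_combination h1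
  have g2 : x 2 = z ^ 2 * x 0 := by linear_combination h2 + z * h1
  have g3 : x 3 = conj z * x 0 := by linear_combination h5
  have g4 : x 4 = z * conj z * x 0 := by linear_combination h3 + z * h5
  have g5 : x 5 = z ^ 2 * conj z * x 0 := by linear_combination h4 + z * h3 + z ^ 2 * h5
  funext i
  fin_cases i
  · simp [xi]
  · simp [xi, g1]; ring
  · simp [xi, g2]; ring
  · simp [xi, g3]; ring
  · simp [xi, g4]; ring
  · simp [xi, g5]; ring

def e0 : Fin 2 → ℂ := ![1, 0]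
def e1 : Fin 2 → ℂ := ![0, 1]

lemma one_eq : (1 : Matrix (Fin 2) (Fin 2) ℂ) = vecMulVec e0 (star e0) +
    vecMulVec e1 (star e1) := by
  ext i j
  rw [Matrix.add_apply, vecMulVec_apply, vecMulVec_apply]
  fin_cases i <;> fin_cases j <;> simp [e0, e1]

lemma Phi0_one : (Phi0 1).PosDef := by
  refine .of_dotProduct_mulVec_pos ?_ fun x hx => ?_
  · rw [IsHermitian, Phi0_conjTranspose, conjTranspose_one]
  · rw [one_eq, Phi0_add, add_mulVec, dotProduct_add, Phi0_form, Phi0_form]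
    have h1 := F_nonneg e0 x
    have h2 := F_nonneg e1 x
    have h3 : 0 < F e0 x + F e1 x := by
      by_contra h
      apply hx
      have g1 : F e0 x = 0 := by linarith
      have g2 : F e1 x = 0 := by linarith
      have n1 : e0 ≠ 0 := fun h0 => by simpa [e0] using congrFun h0 0
      have n2 : e1 ≠ 0 := fun h0 => by simpa [e1] using congrFun h0 1
      obtain ⟨⟨a1, a2, a3, a4⟩, a5, a6, a7⟩ := F_zero n1 g1
      obtain ⟨⟨b1, b2, b3, b4⟩, b5, b6, b7⟩ := F_zero n2 g2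
      simp [e0, e1] at a1 a2 a3 a4 a5 a6 a7 b1 b2 b3 b4 b5 b6 b7
      funext i
      fin_cases i <;> assumption
    exact_mod_cast h3

/-- A normalising matrix. -/
lemma exists_norm : ∃ S : Matrix (Fin 6) (Fin 6) ℂ, IsUnit S ∧ Sᴴ * Phi0 1 * S = 1 := by
  obtain ⟨B, hB⟩ := CStarAlgebra.nonneg_iff_eq_star_mul_self.mp Phi0_one.posSemidef.nonneg
  have hu : IsUnit (star B * B) := hB ▸ Phi0_one.isUnit
  have hdet : IsUnit (star B * B).det := (isUnit_iff_isUnit_det _).1 hu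
  rw [det_mul] at hdet
  have hBdet : IsUnit B.det := isUnit_of_mul_isUnit_right hdet
  refine ⟨B⁻¹, ?_, ?_⟩
  · rw [isUnit_iff_isUnit_det]
    exact isUnit_nonsing_inv_det _ hBdet
  · rw [hB, star_eq_conjTranspose]
    have h1 : B * B⁻¹ = 1 := mul_nonsing_inv _ hBdet
    have h2 : B⁻¹ᴴ * Bᴴ = 1 := by rw [← conjTranspose_mul, h1, conjTranspose_one]
    calc B⁻¹ᴴ * (Bᴴ * B) * B⁻¹ = (B⁻¹ᴴ * Bᴴ) * (B * B⁻¹) := by simp only [Matrix.mul_assoc]
      _ = 1 := by rw [h1, h2, Matrix.one_mul]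

end Pool.Agent.Q213.CLP
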